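import Pool.Agent.Helper34.ST.Basic

/-!
# INJ: `D` walks which are disjoint at every level
-/

set_option autoImplicit false

namespace Pool.Agent.Helper34.ST

open Finset

variable {ι : Type}

open Classical in
theorem inj_step [Fintype ι] (r : ι → ι → Prop) (D : ℕ) (F : Finset ι) (C : Set ι) (hF : F.card = D)
    (hcl : ∀ x ∈ C, ∀ y, r x y → y ∈ C) (hdeg : ∀ x ∈ C, D ≤ {y | r x y}.ncard)
    (ψ : ι → ι) (h1 : Set.InjOn ψ (F : Set ι)) (h2 : ∀ f ∈ F, ψ f ∈ C) :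
    ∃ ψ' : ι → ι, Set.InjOn ψ' (F : Set ι) ∧ (∀ f ∈ F, ψ' f ∈ C) ∧ ∀ f ∈ F, r (ψ f) (ψ' f) := by
  let t : {f // f ∈ F} → Finset ι := fun f => univ.filter (fun y => r (ψ f.1) y)
  have ht : ∀ f : {f // f ∈ F}, D ≤ (t f).card := by
    intro f
    have h3 := hdeg (ψ f.1) (h2 f.1 f.2)
    have e : {y | r (ψ f.1) y}.ncard = (t f).card := by
      rw [← Set.ncard_coe_finset]
      congr 1
      ext y
      simp [t]
    rwa [e] at h3
  have hall : ∀ s : Finset {f // f ∈ F}, s.card ≤ (s.biUnion t).card := by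
    intro s
    rcases s.eq_empty_or_nonempty with hs | ⟨f, hf⟩
    · rw [hs]; simp
    · have h3 : s.card ≤ F.card := by
        calc s.card ≤ (univ : Finset {f // f ∈ F}).card := Finset.card_le_univ s
          _ = F.card := by rw [Finset.card_univ, Fintype.card_coe]
      have h4 : (t f).card ≤ (s.biUnion t).card :=
        Finset.card_le_card (Finset.subset_biUnion_of_mem t hf)
      have h5 := ht f
      omega
  obtain ⟨g, hg1, hg2⟩ := (Finset.all_card_le_biUnion_card_iff_exists_injective t).1 hall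
  have hr : ∀ (f : ι) (hf : f ∈ F), r (ψ f) (g ⟨f, hf⟩) := by
    intro f hf
    have := hg2 ⟨f, hf⟩
    simpa [t] using this
  refine ⟨fun f => if hf : f ∈ F then g ⟨f, hf⟩ else f, ?_, ?_, ?_⟩
  · intro x hx y hy hxy
    have hx' : x ∈ F := hx
    have hy' : y ∈ F := hy
    simp only [hx', hy', dif_pos] at hxy
    have := hg1 hxy
    exact congrArg Subtype.val this
  · intro f hf
    simp only [hf, dif_pos]
    exact hcl _ (h2 f hf) _ (hr f hf)
  · intro f hf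
    simp only [hf, dif_pos]
    exact hr f hf

theorem st_INJ : ST_INJ := by
  intro ι _ r D F C hF hcl hFC hdeg
  classical
  have step : ∀ ψ : {ψ : ι → ι // Set.InjOn ψ (F : Set ι) ∧ ∀ f ∈ F, ψ f ∈ C},
      ∃ ψ' : {ψ : ι → ι // Set.InjOn ψ (F : Set ι) ∧ ∀ f ∈ F, ψ f ∈ C},
        ∀ f ∈ F, r (ψ.1 f) (ψ'.1 f) := by
    intro ψ
    obtain ⟨ψ', h1, h2, h3⟩ := inj_step r D F C hF hcl hdeg ψ.1 ψ.2.1 ψ.2.2
    exact ⟨⟨ψ', h1, h2⟩, h3⟩
  choose nxt hnxt using step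
  let Φ : ℕ → {ψ : ι → ι // Set.InjOn ψ (F : Set ι) ∧ ∀ f ∈ F, ψ f ∈ C} := fun n =>
    Nat.rec ⟨id, Set.injOn_id _, hFC⟩ (fun _ ψ => nxt ψ) n
  refine ⟨fun i => (Φ i).1, fun f _ => rfl, fun i => (Φ i).2.1, fun i f hf => ⟨(Φ i).2.2 f hf, ?_⟩⟩
  exact hnxt (Φ i) f hf

end Pool.Agent.Helper34.ST
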