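import Pool.Agent.Helper34.ST.Basic

/-!
# WIDE: all blocks can be followed cheaply
-/

set_option autoImplicit false

namespace Pool.Agent.Helper34.ST

open Finset

variable {ι : Type}

theorem wide_ht (σ : ℕ → Bool) (s n : ℕ) :
    ht σ s - n ≤ ht σ (s + n) ∧ ht σ (s + n) ≤ ht σ s + n := by
  induction n with
  | zero => simp
  | succ n ih =>
    obtain ⟨h1, h2⟩ := ih
    have e : s + (n + 1) = (s + n) + 1 := by ring
    rw [e]
    push_cast
    rcases ht_succ_cases σ (s + n) with h | h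
    · rw [h]; constructor <;> linarith
    · rw [h]; constructor <;> linarith

theorem wide_class {r : ι → ι → Prop} {C : Set ι} {g : ℕ} {c : ι → ZMod g}
    (hcl : ∀ x ∈ C, ∀ y, r x y → y ∈ C ∧ c y = c x + 1) {w : ℤ → ι} (hw : Dir r w)
    (hwC : ∀ i, w i ∈ C) (lo n : ℤ) : c (w (lo + n)) = c (w lo) + (n : ZMod g) := by
  induction n using Int.induction_on with
  | zero => simp
  | succ n ih =>
    have h1 := (hcl _ (hwC (lo + n)) _ (hw (lo + n))).2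
    have e : lo + ((n : ℤ) + 1) = lo + n + 1 := by ring
    rw [e, h1, ih]
    push_cast
    ring
  | pred n ih =>
    have h1 := (hcl _ (hwC (lo + (-(n : ℤ) - 1))) _ (hw (lo + (-(n : ℤ) - 1)))).2
    have e : lo + (-(n : ℤ) - 1) + 1 = lo + -(n : ℤ) := by ring
    rw [e, ih] at h1
    have h2 : c (w (lo + (-(n : ℤ) - 1))) = c (w lo) + ((-(n : ℤ) : ℤ) : ZMod g) - 1 := by
      rw [h1]; ring
    rw [h2]
    push_cast
    ring

theorem wide_cost {z : ι → ℝ} {Zm : ℝ} (hz0 : ∀ i, 0 ≤ z i) (hzm : ∀ i, z i ≤ Zm)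
    {v : ℤ → ι} {p : ℕ → ι} {σ : ℕ → Bool} {a b : ℕ} {lo : ℤ} {j : ℕ} {e : ℕ → ℕ}
    (hab : a ≤ b)
    (hv : ∀ i : ℕ, i ≤ j → v (lo + i) = p i) (he : ∑ i ∈ range j, e i = b - a)
    (hc : ∀ f : ℤ → ℝ, 2 * ∑ t ∈ Finset.Ico a b, f (ht σ (t + 1)) =
        ∑ i ∈ range j, (e i : ℝ) * (f (lo + i) + f (lo + i + 1)) + f (ht σ b) - f (ht σ a))
    (hp : ∑ i ∈ range j, (e i : ℝ) * (z (p i) + z (p (i + 1))) ≤ 2 * ∑ i ∈ range j, (e i : ℝ)) :
    cost z (fun t => v (ht σ t)) a b ≤ ((b : ℝ) - a) + Zm / 2 := by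
  have h1 := hc (fun x => z (v x))
  have h2 : ∑ i ∈ range j, (e i : ℝ) * (z (v (lo + i)) + z (v (lo + i + 1))) =
      ∑ i ∈ range j, (e i : ℝ) * (z (p i) + z (p (i + 1))) := by
    refine Finset.sum_congr rfl fun i hi => ?_
    rw [Finset.mem_range] at hi
    rw [hv i hi.le]
    have h3 := hv (i + 1) hi
    push_cast at h3
    rw [← add_assoc] at h3
    rw [h3]
  have h4 : ∑ i ∈ range j, (e i : ℝ) = (b : ℝ) - a := by
    rw [← Nat.cast_sum, he, Nat.cast_sub hab]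
  rw [h2] at h1
  rw [h4] at hp
  have h5 := hzm (v (ht σ b))
  have h6 := hz0 (v (ht σ a))
  unfold cost
  linarith

theorem st_WIDE (hS : ST_SCC) (hW : ST_WNL) (hN : ST_NARROW) (hE : ST_EXT) (hC : ST_COSTC)
    (hP : ST_PH0) (hX : ST_EXC) : ST_WIDE := by
  intro ι _ _ r η hη
  by_cases hd : ∃ d, 0 < d ∧ Wt r d
  swap
  · refine ⟨1, Set.univ, le_rfl, fun h => absurd h hd, ?_⟩
    intro d hd1 hd2
    exact absurd ⟨d, hd1, hd2⟩ hd
  obtain ⟨d0, hd0, hwt0⟩ := hd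
  have hout : ∀ x, ∃ y, r x y := fun x => hwt0.exists_out hd0 x
  obtain ⟨C, g, c, J, hCne, hg, hcl, hpred, hpth⟩ := hS ι r hout
  have hsucc : ∀ x ∈ C, ∃ y ∈ C, r x y := fun x hx => by
    obtain ⟨y, hy⟩ := hout x
    exact ⟨y, (hcl x hx y hy).1, hy⟩
  obtain ⟨l', hl', hnar⟩ := hN ι r J (η / 2) (half_pos hη)
  have hl'0 : (0 : ℝ) < l' := by exact_mod_cast hl'
  obtain ⟨L0, hL0⟩ := exists_nat_ge (2 * (Fintype.card ι : ℝ) * (l' + 1) / ((η / 2) * l'))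
  obtain ⟨Lam, hLam1, hLam⟩ : ∃ Lam : ℕ, 1 ≤ Lam ∧
      2 * (Fintype.card ι : ℝ) * (l' + 1) ≤ (η / 2) * (Lam * l') := by
    refine ⟨L0 + 1, by omega, ?_⟩
    have h1 : 0 < (η / 2) * (l' : ℝ) := mul_pos (half_pos hη) hl'0
    rw [div_le_iff₀ h1] at hL0
    push_cast
    nlinarith
  refine ⟨Lam * l', C, ?_, ?_, ?_⟩
  · exact Nat.mul_pos hLam1 hl'
  · intro _
    obtain ⟨x, hx⟩ := hCne
    obtain ⟨u, hu1, hu2, _⟩ := hE ι r C hsucc hpred 0 (fun _ => x) (fun _ _ => hx)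
      (fun i hi => absurd hi (Nat.not_lt_zero i)) 0
    exact ⟨u, hu1, hu2⟩
  intro d hd hwt z hz σ u a hu huC
  have hNC : NC r z l' J ((1 + η / 2) * l') := hnar d hd hwt z hz
  have hzm : ∀ i, z i ≤ 2 * d := hz.le
  have hdN : d ≤ Fintype.card ι := hwt.toO.le_card
  by_cases hall : ∀ q, q < Lam → Rg σ (a + q * l') (a + (q + 1) * l') J
  · obtain ⟨W, w1, w2, w3, w4⟩ := hP ι r z _ l' J hNC σ a Lam u hu hall
    refine ⟨W, u, hu, huC, w1, w2, w3, w4.trans ?_⟩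
    push_cast
    have h1 : 0 ≤ η * ((Lam : ℝ) * l') := by positivity
    nlinarith
  push Not at hall
  classical
  have hex : ∃ q, q < Lam ∧ ¬ Rg σ (a + q * l') (a + (q + 1) * l') J := hall
  obtain ⟨q1, ⟨hq1, hq1R⟩, hmin⟩ : ∃ q, (q < Lam ∧ ¬ Rg σ (a + q * l') (a + (q + 1) * l') J) ∧
      ∀ q' < q, Rg σ (a + q' * l') (a + (q' + 1) * l') J := by
    refine ⟨Nat.find hex, Nat.find_spec hex, ?_⟩
    intro q' hq'
    have h1 := Nat.find_min hex hq'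
    have h2 : q' < Lam := hq'.trans (Nat.find_spec hex).1
    by_contra h3
    exact h1 ⟨h2, h3⟩
  have e12 : a + (q1 + 1) * l' = a + q1 * l' + l' := by ring
  have hb12 : a + q1 * l' ≤ a + (q1 + 1) * l' := by rw [e12]; omega
  have hb23 : a + (q1 + 1) * l' ≤ a + Lam * l' := by
    have : (q1 + 1) * l' ≤ Lam * l' := Nat.mul_le_mul_right _ hq1
    omega
  set b1 := a + q1 * l' with hb1
  set b2 := a + (q1 + 1) * l' with hb2
  set b3 := a + Lam * l' with hb3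
  -- the interval of heights
  obtain ⟨lo, j, hlo⟩ : ∃ (lo : ℤ) (j : ℕ), ∀ t, b2 ≤ t → t ≤ b3 → lo ≤ ht σ t ∧ ht σ t ≤ lo + j := by
    refine ⟨ht σ b2 - (b3 - b2 : ℕ), 2 * (b3 - b2), ?_⟩
    intro t ht1 ht2
    obtain ⟨h1, h2⟩ := wide_ht σ b2 (t - b2)
    have e : b2 + (t - b2) = t := by omega
    rw [e] at h1 h2
    have h3 : ((t - b2 : ℕ) : ℤ) ≤ ((b3 - b2 : ℕ) : ℤ) := by
      have : t - b2 ≤ b3 - b2 := by omega
      exact_mod_cast this
    push_cast at h1 h2 h3 ⊢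
    constructor
    · linarith
    · linarith
  obtain ⟨e, he1, he2⟩ := hC σ b2 b3 lo j hb23 hlo
  obtain ⟨p, hp0, hpc, hpr, hpz⟩ := hW ι r d hd hwt.toO z hz C g c hg hcl hpred (u lo) (huC lo) j e
  have hpC : ∀ i, i ≤ j → p i ∈ C := by
    intro i
    induction i with
    | zero => intro _; exact hp0
    | succ i ih =>
      intro hi
      exact (hcl _ (ih (by omega)) _ (hpr i (by omega))).1
  obtain ⟨v, hv, hvC, hvp⟩ := hE ι r C hsucc hpred j p hpC hpr lo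
  have hcc : ∀ i, c (u i) = c (v i) := by
    intro i
    have h1 := wide_class hcl hu huC lo (i - lo)
    have h2 := wide_class hcl hv hvC lo (i - lo)
    have e1 : lo + (i - lo) = i := by ring
    rw [e1] at h1 h2
    have h3 := hvp 0 (Nat.zero_le j)
    simp only [Nat.cast_zero, add_zero] at h3
    rw [h1, h2, h3, hpc]
  obtain ⟨W2, w21, w22, w23⟩ := hX ι r C g c J hcl hpth σ b1 b2 u v hb12 hq1R hu hv huC hvC hcc
  obtain ⟨W1, w11, w12, w13, w14⟩ := hP ι r z _ l' J hNC σ a q1 u hu hmin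
  have hab1 : a ≤ b1 := by omega
  obtain ⟨W12, x1, x2, x3⟩ := cat hab1 hb12 w11 w21 (by rw [w13, w22])
  obtain ⟨W, y1, y2, y3⟩ := cat (hab1.trans hb12) hb23 x1 (walk_dir hv σ b2 b3)
    (by rw [x3 b2 hb12, w23])
  refine ⟨W, v, hv, hvC, y1, ?_, ?_, ?_⟩
  · rw [y2 a (hab1.trans hb12), x2 a hab1, w12]
  · rw [y3 b3 hb23]
  · have c1 : cost z W a b3 = cost z W12 a b2 + cost z (fun t => v (ht σ t)) b2 b3 :=
      cat_cost (hab1.trans hb12) hb23 y2 y3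
    have c2 : cost z W12 a b2 = cost z W1 a b1 + cost z W2 b1 b2 := cat_cost hab1 hb12 x2 x3
    have c3 : cost z W2 b1 b2 ≤ l' * (2 * d) := by
      have := cost_le hzm W2 b1 l'
      rw [← e12] at this
      exact this
    have c4 : cost z (fun t => v (ht σ t)) b2 b3 ≤ ((b3 : ℝ) - b2) + (2 * d) / 2 :=
      wide_cost hz.1 hzm hb23 hvp he1 he2 hpz
    have c5 : (b3 : ℝ) - b2 = ((Lam : ℝ) - q1 - 1) * l' := by
      rw [hb3, hb2]
      push_cast
      ring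
    rw [c1, c2]
    have c6 : (2 * d) * (l' + 1) ≤ 2 * (Fintype.card ι : ℝ) * (l' + 1) := by
      have : (0 : ℝ) ≤ (l' : ℝ) + 1 := by positivity
      nlinarith
    have c7 : (q1 : ℝ) * l' ≤ Lam * l' := by
      have : (q1 : ℝ) ≤ Lam := by exact_mod_cast hq1.le
      nlinarith
    rw [c5] at c4
    push_cast
    have c8 : η * ((q1 : ℝ) * l') ≤ η * (Lam * l') := by nlinarith
    nlinarith

end Pool.Agent.Helper34.ST
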